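import Pool.Agent.H837.RN.Tfae
import Pool.Graph.R_pool_sql_team_seeded_1acbe0a2.Y148.OD.Trans
import Pool.Graph.R_pool_sql_team_seeded_63374d34.N164.RP.Main

/-!
# Closed subsets and their cones
-/

set_option autoImplicit false

namespace Pool.Agent.H837.RN

open MvPolynomial Pool.Agent.Y148.OD

variable {r : ℕ}

theorem mem_iff_rep {C : Set (Pt r)} {x : Pt r} : x ∈ C ↔ x.rep ∈ cone C := by
  refine ⟨rep_mem_cone, ?_⟩
  rintro ⟨h, hx⟩
  rwa [Projectivization.mk_rep] at hx

/-- A set of points whose cone is given by equations is closed. -/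
theorem closedSet_of_cone {C : Set (Pt r)} (S : Set (MvPolynomial (Fin (r + 1)) ℂ))
    (hC : ∀ v : Fin (r + 1) → ℂ, v ∈ cone C ↔ v ≠ 0 ∧ ∀ P ∈ S, eval v P = 0) : IsClosedSet C := by
  classical
  set T : Set (MvPolynomial (Fin (r + 1)) ℂ) := {Q | ∃ P ∈ S, ∃ i, Q = homogeneousComponent i P}
    with hT
  obtain ⟨F, hFT, hF⟩ := (Submodule.fg_span_iff_fg_span_finset_subset T).mp
    (IsNoetherian.noetherian (Submodule.span (MvPolynomial (Fin (r + 1)) ℂ) T))
  refine ⟨F, fun P hP => ?_, fun x => ?_⟩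
  · obtain ⟨Q, -, i, rfl⟩ := hFT hP
    exact ⟨i, homogeneousComponent_isHomogeneous i Q⟩
  · rw [mem_iff_rep]
    constructor
    · intro hx P hP
      obtain ⟨Q, hQ, i, rfl⟩ := hFT hP
      have h1 := comp_eq_zero Q Q x.rep fun c hc => by
        rw [((hC _).mp (smul_mem_cone hc hx)).2 Q hQ, mul_zero]
      rw [or_self] at h1
      by_cases hi : i ∈ Finset.range (Q.totalDegree + 1)
      · exact h1 i hi
      · rw [homogeneousComponent_eq_zero, map_zero]
        rw [Finset.mem_range] at hi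
        omega
    · intro hx
      refine (hC _).mpr ⟨x.rep_nonzero, fun P hP => ?_⟩
      have h1 : ∀ Q ∈ T, eval x.rep Q = 0 := by
        intro Q hQ
        have h2 : Q ∈ Ideal.span (F : Set (MvPolynomial (Fin (r + 1)) ℂ)) := by
          have h3 : Q ∈ Submodule.span (MvPolynomial (Fin (r + 1)) ℂ) T := Submodule.subset_span hQ
          rw [hF] at h3
          exact h3
        have h4 : Ideal.span (F : Set (MvPolynomial (Fin (r + 1)) ℂ)) ≤ RingHom.ker (eval x.rep) := by
          rw [Ideal.span_le]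
          intro P hP
          exact hx P hP
        exact h4 h2
      rw [← sum_homogeneousComponent P, map_sum]
      exact Finset.sum_eq_zero fun i _ => h1 _ ⟨P, hP, i, rfl⟩

theorem hasVec_unit {C : Set (Pt r)} (v : Unit → Fin (r + 1) → ℂ) :
    HasVec {x : Unit → Pt r | x () ∈ C} v ↔ v () ∈ cone C := by
  constructor
  · rintro ⟨hv, h⟩
    exact ⟨hv (), h⟩
  · rintro ⟨hv, h⟩
    exact ⟨fun _ => hv, h⟩

theorem coords_unit (v : Unit → Fin (r + 1) → ℂ) : coords v = Set.range (v ()) := by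
  ext c
  constructor
  · rintro ⟨i, a, h⟩
    exact ⟨a, h.symm⟩
  · rintro ⟨a, h⟩
    exact ⟨(), a, h.symm⟩

theorem dim_le {C : Set (Pt r)} {e : ℕ} {L : Subfield ℂ} (hL : Countable L)
    (h : ∀ v ∈ cone C, rk L (Set.range v) ≤ (e + 1 : ℕ)) :
    dim {x : Unit → Pt r | x () ∈ C} ≤ e := by
  refine csSup_le' fun d hd => ?_
  have h1 := (dimGE_iff _ _).mp hd L hL
  obtain ⟨v, hv, hr⟩ := h1
  rw [coords_unit, Fintype.card_unit] at hr
  have h2 := hr.trans (h _ ((hasVec_unit v).mp hv))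
  have h3 : d + 1 ≤ e + 1 := by exact_mod_cast h2
  omega

theorem exists_rank {C : Set (Pt r)} {e : ℕ} (h : dim {x : Unit → Pt r | x () ∈ C} ≤ e) :
    ∃ L : Subfield ℂ, Countable L ∧ ∀ v ∈ cone C, rk L (Set.range v) ≤ (e + 1 : ℕ) := by
  by_cases hne : C.Nonempty
  · have hne' : ({x : Unit → Pt r | x () ∈ C}).Nonempty := by
      obtain ⟨x, hx⟩ := hne
      exact ⟨fun _ => x, hx⟩
    have h1 : ¬ DimGE {x : Unit → Pt r | x () ∈ C} (e + 1) := by
      rw [← le_dim_iff hne']
      omega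
    rw [dimGE_iff] at h1
    push Not at h1
    obtain ⟨L, hL, h2⟩ := h1
    refine ⟨L, hL, fun v hv => ?_⟩
    have h3 := h2 (fun _ => v) ((hasVec_unit _).mpr hv)
    rw [coords_unit] at h3
    have h4 : rk L (Set.range v) < ((e + 1 : ℕ) : ℕ∞) + 1 := by
      have e' : ((e + 1 + Fintype.card Unit : ℕ) : ℕ∞) = ((e + 1 : ℕ) : ℕ∞) + 1 := by
        rw [Fintype.card_unit]
        push_cast
        rfl
      rw [← e']
      exact h3
    exact Order.le_of_lt_add_one h4
  · have hc : Countable (⊥ : Subfield ℂ) := by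
      have h2 := Subfield.cardinalMk_closure_le_max (∅ : Set ℂ)
      rw [Subfield.closure_empty] at h2
      rw [← Cardinal.mk_le_aleph0_iff]
      refine h2.trans ?_
      simp
    refine ⟨⊥, hc, fun v hv => ?_⟩
    obtain ⟨h1, h2⟩ := hv
    exact absurd ⟨_, h2⟩ hne

/-- The cone over a closed subset of dimension at most `e`. -/
theorem small_cone {X W : Set (Pt r)} (hWX : W ⊆ X) (hW : IsClosedSet W) {e : ℕ}
    (hd : dim {x : Unit → Pt r | x () ∈ W} ≤ e) {k : Subfield ℂ} (hk : Countable k) :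
    ∃ k' : Subfield ℂ, Countable k' ∧ k ≤ k' ∧ Small k' (cone X) (cone W) (e + 1) := by
  obtain ⟨k₁, hk₁, hcl⟩ := cone_closed hW
  obtain ⟨L, hL, hr⟩ := exists_rank hd
  refine ⟨adj k ((k₁ : Set ℂ) ∪ L), countable_adj ((Set.countable_coe_iff.mp hk₁).union
    (Set.countable_coe_iff.mp hL)), le_adj_left _ _, fun v hv => ⟨hv.choose, hWX hv.choose_spec⟩,
    closed_mono (fun x hx => subset_adj _ _ (Or.inl hx)) hcl, fun c v hc hv => smul_mem_cone hc hv,
    fun v hv => ?_⟩
  exact (rk_anti (fun x hx => subset_adj _ _ (Or.inr hx)) _).trans (hr v hv)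

/-- The points of a cone. -/
theorem exists_pts {X : Set (Pt r)} {k : Subfield ℂ} (hk : Countable k) {W : Set (Fin (r + 1) → ℂ)}
    {e : ℕ} (hW : Small k (cone X) W (e + 1)) : ∃ W' ⊆ X, cone W' = W ∧ IsClosedSet W' ∧
      dim {x : Unit → Pt r | x () ∈ W'} ≤ e := by
  have hcone : cone {x : Pt r | x.rep ∈ W} = W := by
    ext v
    constructor
    · rintro ⟨hv, hx⟩
      obtain ⟨c, hc, hcv⟩ := exists_rep v hv
      have h1 : (Projectivization.mk ℂ v hv).rep ∈ W := hx
      rw [hcv] at h1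
      have h2 := hW.smul c⁻¹ _ (inv_ne_zero hc) h1
      rwa [smul_smul, inv_mul_cancel₀ hc, one_smul] at h2
    · intro h
      have hv : v ≠ 0 := (hW.sub h).choose
      refine ⟨hv, ?_⟩
      obtain ⟨c, hc, hcv⟩ := exists_rep v hv
      show (Projectivization.mk ℂ v hv).rep ∈ W
      rw [hcv]
      exact hW.smul c v hc h
  refine ⟨{x | x.rep ∈ W}, fun x hx => ?_, hcone, ?_, ?_⟩
  · rw [mem_iff_rep]
    exact hW.sub hx
  · obtain ⟨S, hS⟩ := hW.closed
    refine closedSet_of_cone (MvPolynomial.map (algebraMap k ℂ) '' S) fun v => ?_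
    rw [hcone, hS, Set.forall_mem_image]
    refine and_congr_right fun _ => forall₂_congr fun P _ => ?_
    rw [eval_map, aeval_def]
  · refine dim_le hk fun v hv => ?_
    rw [hcone] at hv
    exact hW.rank v hv

end Pool.Agent.H837.RN
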