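import Pool.Agent.H837.RN.Conv

/-!
# Translation between the two sets of definitions
-/

set_option autoImplicit false

namespace Pool.Agent.H837.RN

open MvPolynomial Pool.Agent.Y148.OD
open Pool.Agent.N164 (RP.IsCoord RP.Vanishes RP.VanishesOn RP.one RP.Base RP.GoodCurve RP.InChart
  RP.affine RP.toC RP.PolyK RP.Poly RP.Loc RP.Et)

variable {r : ℕ}

theorem mem_cone_iff {X : Set (Pt r)} {v : Fin (r + 1) → ℂ} :
    v ∈ cone X ↔ ∃ x ∈ X, RP.IsCoord v x :=
  ⟨fun ⟨h, hx⟩ => ⟨_, hx, h, rfl⟩, fun ⟨_, hx, h, he⟩ => ⟨h, by rw [he]; exact hx⟩⟩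

theorem vanishesOn_iff {X : Set (Pt r)} (F : RP.Poly Unit r) :
    RP.VanishesOn F (RP.one X) ↔ ∀ v ∈ cone X, eval v (rename Prod.snd F) = 0 := by
  constructor
  · intro h v hv
    obtain ⟨x, hx, hvx⟩ := mem_cone_iff.mp hv
    have h1 := h (fun _ => x) hx (fun _ => v) (fun _ => hvx)
    rw [eval_rename]
    exact h1
  · intro h p hp v hv
    have h1 := h (v ()) (mem_cone_iff.mpr ⟨p (), hp, hv ()⟩)
    rw [eval_rename] at h1
    exact h1

theorem irr_of_setup {X : Set (Pt r)} {k : Subfield ℂ} {M : ℕ} (h : Setup k (cone X) M)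
    (F G : RP.Poly Unit r) (hFG : RP.VanishesOn (F * G) (RP.one X)) :
    RP.VanishesOn F (RP.one X) ∨ RP.VanishesOn G (RP.one X) := by
  rw [vanishesOn_iff] at hFG
  rw [vanishesOn_iff, vanishesOn_iff]
  refine h.prime _ _ fun v hv => ?_
  have h1 := hFG v hv
  rw [map_mul, map_mul] at h1
  exact h1

theorem rk_ratio_le {X : Set (Pt r)} {k : Subfield ℂ} {d : ℕ} (h : Setup k (cone X) (d + 1))
    {v : Fin (r + 1) → ℂ} (hv : v ∈ cone X) {b : Fin (r + 1)} (hb : v b ≠ 0) :
    rk k (Set.range fun a => v a / v b) ≤ (d : ℕ) := by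
  have := uncountable_complex
  have hS : Small k (cone X) (cone X) (d + 1) :=
    ⟨subset_rfl, h.closed, fun c v hc hv => smul_mem_cone hc hv,
      (h.point le_rfl h.countable).1⟩
  have h2 := hS.rank_normal h.countable hv hb
  push_cast at h2
  exact (ENat.add_le_add_iff_right (by simp)).mp h2

theorem base_of_setup {X : Set (Pt r)} {k : Subfield ℂ} {d : ℕ} (h : Setup k (cone X) (d + 1)) :
    RP.Base X d k := by
  classical
  have := uncountable_complex
  constructor
  · obtain ⟨S, hS⟩ := h.closed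
    refine ⟨rename (fun a => ((), a)) '' S, ?_⟩
    ext p
    have hiff : ∀ (P : MvPolynomial (Fin (r + 1)) k) (v : Unit → Fin (r + 1) → ℂ),
        eval (fun s : Unit × Fin (r + 1) => v s.1 s.2) (RP.toC (rename (fun a => ((), a)) P)) =
          aeval (v ()) P := by
      intro P v
      rw [Pool.Agent.N164.RP.eval_toC, aeval_rename]
      rfl
    constructor
    · rintro hp _ ⟨P, hP, rfl⟩ v hv
      rw [hiff]
      exact ((hS _).mp (mem_cone_iff.mpr ⟨p (), hp, hv ()⟩)).2 P hP
    · intro hp
      show p () ∈ X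
      rw [mem_iff_rep]
      refine (hS _).mpr ⟨(p ()).rep_nonzero, fun P hP => ?_⟩
      have h1 := hp _ ⟨P, hP, rfl⟩ (fun _ => (p ()).rep) fun i =>
        Pool.Agent.N164.RP.isCoord_rep (p i)
      exact (hiff P fun _ => (p ()).rep).symm.trans h1
  · intro a s hs
    by_cases hch : ∃ p ∈ RP.one X, RP.InChart a p
    · obtain ⟨p₀, hp₀, hp₀a⟩ := hch
      obtain ⟨g, hg, hgr⟩ := h.lower k h.countable
      have hgen := (h.point le_rfl h.countable).2 g hg hgr
      have hga : g (a ()) ≠ 0 := by
        intro h0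
        have h1 := hgen (MvPolynomial.X (a ())) (by rw [aeval_X]; exact h0) _ (rep_mem_cone hp₀)
        rw [aeval_X] at h1
        exact hp₀a () h1
      obtain ⟨x, hx, hgx⟩ := mem_cone_iff.mp hg
      have hgc : ∀ i : Unit, RP.IsCoord ((fun _ : Unit => g) i) ((fun _ : Unit => x) i) :=
        fun _ => hgx
      have hchx : RP.InChart a (fun _ : Unit => x) := by
        intro i hi
        obtain ⟨c, hc, hgc'⟩ := Pool.Agent.N164.RP.isCoord_iff.mp hgx
        apply hga
        rw [hgc']
        show c * x.rep (a ()) = 0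
        have : x.rep (a ()) = 0 := hi
        rw [this, mul_zero]
      have hnot : ¬ AlgebraicIndependent k (fun t : s => RP.affine a (fun _ : Unit => x) t) := by
        intro hind
        have h1 := Pool.Agent.N164.RP.card_le_rk hind
        have h2 : Set.range (RP.affine a (fun _ : Unit => x)) ⊆ Set.range fun b => g b / g (a ()) := by
          rintro _ ⟨q, rfl⟩
          refine ⟨q.2, ?_⟩
          exact Pool.Agent.N164.RP.affine_of_isCoord hgc q
        have h3 := h1.trans ((rk_mono k h2).trans (rk_ratio_le h hg hga))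
        rw [hs] at h3
        have h4 : d + 1 ≤ d := by exact_mod_cast h3
        omega
      rw [algebraicIndependent_iff] at hnot
      push Not at hnot
      obtain ⟨P, hP, hP0⟩ := hnot
      refine ⟨P, hP0, fun p hp hpa => ?_⟩
      obtain ⟨F, hF⟩ := Pool.Agent.N164.RP.vanishes_of_aeval (a := a)
        (rename (Subtype.val : s → Unit × Fin (r + 1)) P)
      have h1 := (hF _ hchx).mpr (by rw [aeval_rename]; exact hP)
      have h2 := hgen (rename Prod.snd F) (by
        rw [aeval_rename]
        have h3 := h1 (fun _ => g) hgc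
        rw [Pool.Agent.N164.RP.eval_toC] at h3
        exact h3)
      have h4 := (hF p hpa).mp (by
        intro v hv
        rw [Pool.Agent.N164.RP.eval_toC]
        have h3 := h2 (v ()) (mem_cone_iff.mpr ⟨p (), hp, hv ()⟩)
        rw [aeval_rename] at h3
        exact h3)
      rw [aeval_rename] at h4
      exact h4
    · refine ⟨1, one_ne_zero, fun p hp hpa => ?_⟩
      exact absurd ⟨p, hp, hpa⟩ hch

/-- The curves of the library are closed. -/
theorem closed_of_good {X C : Set (Pt r)} (hC : RP.GoodCurve X C) : IsClosedSet C := by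
  classical
  obtain ⟨S, hS⟩ := hC.closed
  have hmem : ∀ x : Pt r, x ∈ C ↔ ∀ F ∈ S, RP.Vanishes F (fun _ : Unit => x) := by
    intro x
    exact Set.ext_iff.mp hS (fun _ => x)
  refine closedSet_of_cone {Q | ∃ F ∈ S, ∃ i, Q = homogeneousComponent i (rename Prod.snd F)}
    fun v => ?_
  constructor
  · intro hv
    refine ⟨hv.choose, ?_⟩
    rintro Q ⟨F, hF, i, rfl⟩
    have h1 := comp_eq_zero (rename Prod.snd F) (rename Prod.snd F) v fun c hc => by
      obtain ⟨x, hx, hvx⟩ := mem_cone_iff.mp (smul_mem_cone hc hv)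
      have h2 := (hmem x).mp hx F hF (fun _ => c • v) fun _ => hvx
      rw [eval_rename]
      have h3 : eval ((c • v) ∘ Prod.snd) F = 0 := h2
      rw [h3, mul_zero]
    rw [or_self] at h1
    by_cases hi : i ∈ Finset.range ((rename Prod.snd F).totalDegree + 1)
    · exact h1 i hi
    · rw [homogeneousComponent_eq_zero, map_zero]
      rw [Finset.mem_range] at hi
      omega
  · rintro ⟨hv0, hv⟩
    refine mem_cone_iff.mpr ⟨Projectivization.mk ℂ v hv0, ?_, hv0, rfl⟩
    rw [hmem]
    intro F hF w hw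
    obtain ⟨c, hc, hcw⟩ := Pool.Agent.N164.RP.isCoord_iff.mp (hw ())
    obtain ⟨c', hc', hcv⟩ := exists_rep v hv0
    have h1 : w () = (c * c') • v := by
      rw [hcw, hcv, smul_smul]
    have h2 : eval ((c * c') • v) (rename Prod.snd F) = 0 := by
      rw [eval_eq_sum_comp]
      refine Finset.sum_eq_zero fun i _ => ?_
      rw [hv _ ⟨F, hF, i, rfl⟩, mul_zero]
    rw [← h1, eval_rename] at h2
    exact h2

/-- The curves of the library have dimension at most one. -/
theorem dim_of_good {X C : Set (Pt r)} (hC : RP.GoodCurve X C) :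
    dim {x : Unit → Pt r | x () ∈ C} ≤ 1 := by
  classical
  have hsm : ∀ as : (Unit → Fin (r + 1)) × Finset (Unit × Fin (r + 1)),
      ∃ P : MvPolynomial as.2 ℂ, as.2.card = 2 → P ≠ 0 ∧ ∀ p ∈ RP.one C, RP.InChart as.1 p →
        eval (fun t : as.2 => RP.affine as.1 p t) P = 0 := by
    rintro ⟨a, s⟩
    by_cases hs : s.card = 2
    · obtain ⟨P, hP⟩ := hC.small a s hs
      exact ⟨P, fun _ => hP⟩
    · exact ⟨0, fun h => absurd h hs⟩
  choose P hP using hsm
  have hc : Countable (⊥ : Subfield ℂ) := by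
    have h2 := Subfield.cardinalMk_closure_le_max (∅ : Set ℂ)
    rw [Subfield.closure_empty] at h2
    rw [← Cardinal.mk_le_aleph0_iff]
    refine h2.trans ?_
    simp
  set L : Subfield ℂ := adj ⊥ (⋃ as, ((P as).coeffs : Set ℂ)) with hL
  have hLc : Countable L := countable_adj (Set.countable_iUnion fun as =>
    (P as).coeffs.countable_toSet)
  refine dim_le hLc fun v hv => ?_
  obtain ⟨b, hb⟩ := exists_ne hv.choose
  obtain ⟨x, hx, hvx⟩ := mem_cone_iff.mp hv
  have hvc : ∀ i : Unit, RP.IsCoord ((fun _ : Unit => v) i) ((fun _ : Unit => x) i) := fun _ => hvx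
  have hch : RP.InChart (fun _ : Unit => b) (fun _ : Unit => x) := by
    intro i hi
    obtain ⟨c, hc, hgc'⟩ := Pool.Agent.N164.RP.isCoord_iff.mp hvx
    apply hb
    rw [hgc']
    show c * x.rep b = 0
    have : x.rep b = 0 := hi
    rw [this, mul_zero]
  have h1 : rk L (Set.range (RP.affine (fun _ : Unit => b) (fun _ : Unit => x))) ≤ 1 := by
    by_contra hcon
    rw [not_le] at hcon
    have h2 : ((2 : ℕ) : ℕ∞) ≤ rk L (Set.range (RP.affine (fun _ : Unit => b)
        (fun _ : Unit => x))) := by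
      have := Order.add_one_le_of_lt hcon
      exact_mod_cast this
    obtain ⟨s, hs, hind⟩ := Pool.Agent.N164.RP.exists_independent h2
    obtain ⟨hP0, hPv⟩ := hP (fun _ => b, s) hs
    obtain ⟨Q, hQ⟩ := exists_lift (K := L) (P := P (fun _ => b, s)) fun m => by
      by_cases h0 : (P (fun _ => b, s)).coeff m = 0
      · rw [h0]
        exact zero_mem _
      · exact subset_adj _ _ (Set.mem_iUnion.mpr ⟨(fun _ => b, s), coeff_mem_coeffs m h0⟩)
    have h3 := hPv (fun _ => x) hx hch
    rw [← hQ, eval_map, ← aeval_def] at h3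
    have h4 := algebraicIndependent_iff.mp hind Q h3
    apply hP0
    rw [← hQ, h4, map_zero]
  have h2 : Set.range v ⊆ (adj L (Set.range (RP.affine (fun _ : Unit => b) (fun _ : Unit => x)) ∪
      {v b}) : Set ℂ) := by
    rintro _ ⟨j, rfl⟩
    have h3 : v j = RP.affine (fun _ : Unit => b) (fun _ : Unit => x) ((), j) * v b := by
      rw [← Pool.Agent.N164.RP.affine_of_isCoord hvc]
      field_simp
    rw [h3]
    exact mul_mem (subset_adj _ _ (Or.inl ⟨_, rfl⟩)) (subset_adj _ _ (Or.inr rfl))
  refine (rk_le_of_mem fun y hy => h2 hy).trans ((rk_union_le _ _ _).trans ?_)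
  have h4 : rk L {v b} ≤ 1 := (rk_le_encard _ _).trans (by simp)
  calc _ ≤ (1 : ℕ∞) + 1 := add_le_add h1 h4
    _ = _ := by norm_num

end Pool.Agent.H837.RN
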