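import Pool.Graph.R_pool_sql_team_seeded_1acbe0a2.Y148.OD.Gen

/-!
# Zero-cycles on a variety and zero-cycles on a closed subset of given dimension
-/

set_option autoImplicit false

namespace Pool.Agent.H837.RN

open MvPolynomial Pool.Agent.Y148.OD

variable {Ω : Type} [Field Ω] {τ : Type} {A : Type} [AddCommGroup A]

/-- `W` is a closed cone without its vertex, contained in `V`, defined over `k` and of dimension at
most `e`. -/
structure Small (k : Subfield Ω) (V W : Set (τ → Ω)) (e : ℕ) : Prop where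
  sub : W ⊆ V
  closed : ∃ S : Set (MvPolynomial τ k), ∀ v : τ → Ω, v ∈ W ↔ v ≠ 0 ∧ ∀ P ∈ S, aeval v P = 0
  smul : ∀ (c : Ω) (v : τ → Ω), c ≠ 0 → v ∈ W → c • v ∈ W
  rank : ∀ v ∈ W, rk k (Set.range v) ≤ e

theorem Small.mono {k K : Subfield Ω} (h : k ≤ K) {V W : Set (τ → Ω)} {e : ℕ}
    (hW : Small k V W e) : Small K V W e where
  sub := hW.sub
  closed := closed_mono h hW.closed
  smul := hW.smul
  rank := fun v hv => (rk_anti h _).trans (hW.rank v hv)

theorem Small.iUnion {k : Subfield Ω} {V : Set (τ → Ω)} {e n : ℕ} {W : Fin n → Set (τ → Ω)}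
    (h : ∀ i, Small k V (W i) e) : Small k V (⋃ i, W i) e where
  sub := Set.iUnion_subset fun i => (h i).sub
  closed := by
    classical
    choose S hS using fun i => (h i).closed
    by_cases hn : n = 0
    · subst hn
      refine ⟨{1}, fun v => ?_⟩
      constructor
      · intro hv
        obtain ⟨i, -⟩ := Set.mem_iUnion.mp hv
        exact i.elim0
      · rintro ⟨-, hv⟩
        have h1 := hv 1 rfl
        rw [map_one] at h1
        exact absurd h1 one_ne_zero
    refine ⟨{P | ∃ Q : Fin n → MvPolynomial τ k, (∀ i, Q i ∈ S i) ∧ P = ∏ i, Q i}, fun v => ?_⟩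
    constructor
    · intro hv
      obtain ⟨i, hi⟩ := Set.mem_iUnion.mp hv
      obtain ⟨h1, h2⟩ := (hS i v).mp hi
      refine ⟨h1, ?_⟩
      rintro P ⟨Q, hQ, rfl⟩
      rw [map_prod]
      exact Finset.prod_eq_zero (Finset.mem_univ i) (h2 _ (hQ i))
    · rintro ⟨hv0, hv⟩
      by_contra hcon
      rw [Set.mem_iUnion, not_exists] at hcon
      have h1 : ∀ i, ∃ Q ∈ S i, aeval v Q ≠ 0 := by
        intro i
        by_contra h2
        push Not at h2
        exact hcon i ((hS i v).mpr ⟨hv0, h2⟩)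
      choose Q hQ hQ0 using h1
      have h2 := hv _ ⟨Q, hQ, rfl⟩
      rw [map_prod] at h2
      exact Finset.prod_ne_zero_iff.mpr (fun i _ => hQ0 i) h2
  smul := by
    intro c v hc hv
    obtain ⟨i, hi⟩ := Set.mem_iUnion.mp hv
    exact Set.mem_iUnion.mpr ⟨i, (h i).smul c v hc hi⟩
  rank := by
    intro v hv
    obtain ⟨i, hi⟩ := Set.mem_iUnion.mp hv
    exact (h i).rank v hi

/-- All effective zero-cycles on `D` are equivalent to the sum of an effective zero-cycle on `W` and an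
effective zero-cycle of degree at most `P` on `V`. -/
def Red (V D W : Set (τ → Ω)) (cl : (τ → Ω) → A) (P : ℕ) : Prop :=
  ∀ n, ∀ a ∈ Eff D cl n, ∃ i j, i + j = n ∧ j ≤ P ∧ ∃ b ∈ Eff W cl i, ∃ b' ∈ Eff V cl j, a = b + b'

omit [Field Ω] in
theorem eff_zero {V : Set (τ → Ω)} {cl : (τ → Ω) → A} : (0 : A) ∈ Eff V cl 0 :=
  ⟨Fin.elim0, fun i => i.elim0, by simp⟩

omit [Field Ω] in
theorem eff_mono {V W : Set (τ → Ω)} (h : W ⊆ V) {cl : (τ → Ω) → A} {n : ℕ} {a : A}
    (ha : a ∈ Eff W cl n) : a ∈ Eff V cl n := by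
  obtain ⟨z, hz, rfl⟩ := ha
  exact ⟨z, fun i => h (hz i), rfl⟩

theorem eff_finset_sum {ι : Type} {V : Set (τ → Ω)} {cl : (τ → Ω) → A} (s : Finset ι) (n : ι → ℕ)
    (a : ι → A) (h : ∀ i ∈ s, a i ∈ Eff V cl (n i)) : ∑ i ∈ s, a i ∈ Eff V cl (∑ i ∈ s, n i) := by
  classical
  induction s using Finset.induction_on with
  | empty => simpa using eff_zero
  | insert i s hi ih =>
    rw [Finset.sum_insert hi, Finset.sum_insert hi]
    exact eff_add (h i (Finset.mem_insert_self _ _))
      (ih fun j hj => h j (Finset.mem_insert_of_mem hj))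

theorem Red.union {n : ℕ} {V D : Set (τ → Ω)} {D' W : Fin n → Set (τ → Ω)} {cl : (τ → Ω) → A}
    {P : Fin n → ℕ} (hD : ∀ v ∈ D, ∃ i, v ∈ D' i) (h : ∀ i, Red V (D' i) (W i) cl (P i)) :
    Red V D (⋃ i, W i) cl (∑ i, P i) := by
  classical
  rintro m a ⟨z, hz, rfl⟩
  choose f hf using fun i => hD _ (hz i)
  have h1 : ∀ i, ∑ j : {j // f j = i}, cl (z j) ∈ Eff (D' i) cl (Fintype.card {j // f j = i}) :=
    fun i => eff_sum fun j => by
      have := hf j
      rwa [j.2] at this
  choose s t hst ht b hb b' hb' hsum using fun i => h i _ _ (h1 i)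
  refine ⟨∑ i, s i, ∑ i, t i, ?_, Finset.sum_le_sum fun i _ => ht i, ∑ i, b i, ?_, ∑ i, b' i, ?_, ?_⟩
  · rw [← Finset.sum_add_distrib]
    have h2 : ∑ i, (s i + t i) = ∑ i, Fintype.card {j // f j = i} :=
      Finset.sum_congr rfl fun i _ => hst i
    rw [h2, ← Fintype.card_sigma, Fintype.card_congr (Equiv.sigmaFiberEquiv f), Fintype.card_fin]
  · exact eff_finset_sum _ _ _ fun i _ => eff_mono (Set.subset_iUnion W i) (hb i)
  · exact eff_finset_sum _ _ _ fun i _ => hb' i
  · rw [← Finset.sum_add_distrib]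
    have h2 : ∑ i, (b i + b' i) = ∑ i, ∑ j : {j // f j = i}, cl (z j) :=
      Finset.sum_congr rfl fun i _ => (hsum i).symm
    rw [h2, ← Equiv.sum_comp (Equiv.sigmaFiberEquiv f) fun j => cl (z j), Fintype.sum_sigma]
    rfl

/-- **Dichotomy.** The zero-cycles on a subvariety can be moved to a subset of dimension `e`, up to a
bounded number of points, or there is a terminal subvariety of a dimension greater than `e`. -/
theorem dichotomy_e (hComp : StmComp) [IsAlgClosed Ω] [Uncountable Ω]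
    [Fintype τ] {k : Subfield Ω} {V : Set (τ → Ω)} {M : ℕ} (_h : Setup k V M)
    {cl : (τ → Ω) → A} (hc : Cls k V cl) (e : ℕ) :
    ∀ (m : ℕ) (k₀ : Subfield Ω) (D : Set (τ → Ω)), k ≤ k₀ → D ⊆ V → Setup k₀ D m →
      (∀ (c : Ω) (v : τ → Ω), c ≠ 0 → v ∈ D → c • v ∈ D) →
      (∃ (k' : Subfield Ω) (W : Set (τ → Ω)) (P : ℕ), Countable k' ∧ k₀ ≤ k' ∧ Small k' V W e ∧
        Red V D W cl P) ∨
      (∃ (k' : Subfield Ω) (E : Set (τ → Ω)) (m' : ℕ), Countable k' ∧ k₀ ≤ k' ∧ e + 1 ≤ m' ∧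
        Terminal k' V E m' cl) := by
  classical
  intro m
  induction m using Nat.strong_induction_on with
  | _ m ih =>
    intro k₀ D hk₀ hDV hD hsm
    have hk₀c := hD.countable
    have hc₀ : Cls k₀ V cl := hc.mono hk₀
    have hD0 : ∀ v ∈ D, v ≠ 0 := fun v hv => hc.ne_zero v (hDV hv)
    by_cases hme : m ≤ e
    · left
      refine ⟨k₀, D, 0, hk₀c, le_rfl, ⟨hDV, hD.closed, hsm, fun v hv => ?_⟩, fun n a ha => ?_⟩
      · exact ((hD.point le_rfl hk₀c).1 v hv).trans (by exact_mod_cast hme)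
      · exact ⟨n, 0, rfl, le_rfl, a, ha, 0, eff_zero, (add_zero a).symm⟩
    by_cases hmove : ∃ p, GenMove k₀ D m cl p
    · obtain ⟨p, hp⟩ := hmove
      obtain ⟨w₀, hw₀⟩ := hD.nonempty
      obtain ⟨a₁, ha₁⟩ := exists_coord hw₀ hD0
      set l : τ → Ω := Pi.single a₁ 1 with hl
      have hlv : ∀ v : τ → Ω, ∑ a, l a * v a = v a₁ := sum_single a₁
      have hlk : ∀ a, l a ∈ k₀ := single_mem k₀ a₁
      obtain ⟨k', N, D', m', hk'c, hk'a, hkk', hset, hDW, hDsm, hDcov⟩ :=
        hComp Ω τ (Sec D l) k₀ hk₀c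
        (by
          obtain ⟨S, hS⟩ := hD.closed
          refine ⟨S ∪ {X a₁}, fun v => ?_⟩
          constructor
          · rintro ⟨hv, hv0⟩
            obtain ⟨hv1, hv2⟩ := (hS v).mp hv
            refine ⟨hv1, ?_⟩
            rintro P (hP | hP)
            · exact hv2 P hP
            · rw [Set.mem_singleton_iff.mp hP, aeval_X]
              rw [hlv] at hv0
              exact hv0
          · rintro ⟨hv1, hv2⟩
            refine ⟨(hS v).mpr ⟨hv1, fun P hP => hv2 P (Or.inl hP)⟩, ?_⟩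
            rw [hlv]
            have := hv2 _ (Or.inr rfl)
            rwa [aeval_X] at this)
        (by
          rintro c v h0 ⟨hv, hv0⟩
          refine ⟨hsm c v h0 hv, ?_⟩
          rw [hlv] at hv0 ⊢
          simp [hv0])
      have hD'' : Setup k' D m := hD.mono hkk' hk'c
      have hm : ∀ i, m' i < m := by
        intro i
        by_contra hcon
        rw [not_lt] at hcon
        obtain ⟨v, hv, hvr⟩ := (hset i).lower k' hk'c
        obtain ⟨hvD, hv0⟩ := hDW i hv
        rw [hlv] at hv0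
        have h1 : (m : ℕ∞) ≤ rk k' (Set.range v) := le_trans (by exact_mod_cast hcon) hvr
        have h2 := (hD''.point le_rfl hk'c).2 v hvD h1 (X a₁) (by rw [aeval_X]; exact hv0) w₀ hw₀
        rw [aeval_X] at h2
        exact ha₁ h2
      by_cases hright : ∃ _i : Fin N, ∃ (k'' : Subfield Ω) (E : Set (τ → Ω)) (m'' : ℕ),
          Countable k'' ∧ k' ≤ k'' ∧ e + 1 ≤ m'' ∧ Terminal k'' V E m'' cl
      · obtain ⟨i, k'', E, m'', h1, h2, h3, h4⟩ := hright
        exact Or.inr ⟨k'', E, m'', h1, hkk'.trans h2, h3, h4⟩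
      · left
        have hred : ∀ i, ∃ (k'' : Subfield Ω) (W : Set (τ → Ω)) (P : ℕ), Countable k'' ∧
            k' ≤ k'' ∧ Small k'' V W e ∧ Red V (D' i) W cl P := by
          intro i
          rcases ih (m' i) (hm i) k' (D' i) (hk₀.trans hkk') (fun v hv => hDV (hDW i hv).1)
            (hset i) (hDsm i) with h1 | h1
          · exact h1
          · exact absurd ⟨i, h1⟩ hright
        choose f W P hfc hfk hfW hfR using hred
        set K := adj k' (⋃ i, (f i : Set Ω)) with hK
        have hKc : Countable K := countable_adj (Set.countable_iUnion fun i =>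
          Set.countable_coe_iff.mp (hfc i))
        have hfK : ∀ i, f i ≤ K := fun i x hx => subset_adj _ _ (Set.mem_iUnion.mpr ⟨i, hx⟩)
        have hkK : k₀ ≤ K := hkk'.trans (le_adj_left _ _)
        refine ⟨K, ⋃ i, W i, ∑ i, P i + p, hKc, hkK, Small.iUnion fun i => (hfW i).mono (hfK i), ?_⟩
        have hR : Red V (Sec D l) (⋃ i, W i) cl (∑ i, P i) := Red.union hDcov hfR
        have hcD : Cls k₀ D cl := hc₀.sub hDV hD.closed hsm
        have hsec := eff_section (eff_move hD hcD hp l hlk)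
        intro n a ha
        by_cases hn : n < p
        · refine ⟨0, n, by omega, by omega, 0, eff_zero, a, eff_mono hDV ha, (zero_add a).symm⟩
        · obtain ⟨s, rfl⟩ : ∃ s, n = s + p := ⟨n - p, by omega⟩
          obtain ⟨b, hb, b', hb', rfl⟩ := hsec s a ha
          obtain ⟨i, j, hij, hj, c, hc1, c', hc2, rfl⟩ := hR s b hb
          refine ⟨i, j + p, by omega, by omega, c, hc1, c' + b', eff_add hc2 (eff_mono hDV hb'), ?_⟩
          rw [add_assoc]
    · right
      push Not at hmove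
      exact ⟨k₀, D, m, hk₀c, le_rfl, by omega, hDV, hD, hsm, hmove⟩

end Pool.Agent.H837.RN
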