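import Pool.Agent.H837.RN.Support
import Pool.Graph.R_pool_sql_team_seeded_1acbe0a2.Y148.OD.Facts

/-!
# Homomorphisms given by families of zero-cycles: one fibre dimension and the dimension of the support
-/

set_option autoImplicit false

namespace Pool.Agent.H837.RN

open MvPolynomial Pool.Agent.Y148.OD
open Pool.Agent.N164 (RP.GoodCurve)

/-- The homomorphisms from `B(X)` to `B(Y)`. -/
abbrev Hom {r s : ℕ} (X : Set (Pt r)) (Y : Set (Pt s)) : Type := B X →+ B Y

/-- The value of `φ` at the effective zero-cycle `∑ [x i]`. -/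
def val {r s : ℕ} {X : Set (Pt r)} {Y : Set (Pt s)} (φ : Hom X Y) {n : ℕ} (x : Fin n → X) : B Y :=
  φ (γ X x)

/-- The homomorphism `φ`, applied to effective zero-cycles on `X`, is the sum of its values at an
effective zero-cycle on `W` and at an effective zero-cycle on `X` of degree at most `P`. -/
def MovesTo {r s : ℕ} {X : Set (Pt r)} {Y : Set (Pt s)} (φ : Hom X Y) (W : Set (Pt r))
    (P : ℕ) : Prop :=
  ∀ (n : ℕ) (x : Fin n → X), ∃ (i j : ℕ) (w : Fin i → X) (y : Fin j → X), i + j = n ∧ j ≤ P ∧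
    (∀ q, (w q : Pt r) ∈ W) ∧ val φ x = val φ w + val φ y

theorem sum_cl {r s : ℕ} {X : Set (Pt r)} {Y : Set (Pt s)} (φ : B X →+ B Y) {n : ℕ}
    (z : Fin n → Fin (r + 1) → ℂ) (hz : ∀ i, z i ∈ cone X) :
    ∑ i, φ (cl X (z i)) = φ (γ X fun i => pt ⟨z i, hz i⟩) := by
  rw [← map_sum]
  congr 1
  exact (γ_pt fun i => ⟨z i, hz i⟩).symm

theorem sum_vec {r s : ℕ} {X : Set (Pt r)} {Y : Set (Pt s)} (φ : B X →+ B Y) {n : ℕ}
    (x : Fin n → X) : ∑ i, φ (cl X (vec (x i))) = φ (γ X x) := by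
  rw [← map_sum]
  congr 1
  rw [← γ_pt]
  simp only [pt_vec]

theorem movesTo_iff {r s : ℕ} {X : Set (Pt r)} {Y : Set (Pt s)} (φ : B X →+ B Y)
    {W : Set (Pt r)} (hWX : W ⊆ X) (P : ℕ) :
    MovesTo φ W P ↔ Red (cone X) (cone X) (cone W) (fun v => φ (cl X v)) P := by
  unfold MovesTo val
  constructor
  · rintro h n _ ⟨z, hz, rfl⟩
    obtain ⟨i, j, w, y, hij, hj, hw, hsum⟩ := h n fun i => pt ⟨z i, hz i⟩
    refine ⟨i, j, hij, hj, _, ⟨fun q => vec (w q), fun q => ?_, rfl⟩, _,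
      ⟨fun q => vec (y q), fun q => (vec (y q)).2, rfl⟩, ?_⟩
    · exact rep_mem_cone (hw q)
    · rw [sum_cl φ z hz, sum_vec, sum_vec, hsum]
  · intro h n x
    obtain ⟨i, j, hij, hj, _, ⟨w, hw, rfl⟩, _, ⟨y, hy, rfl⟩, hsum⟩ :=
      h n _ ⟨fun q => vec (x q), fun q => (vec (x q)).2, rfl⟩
    have hwX : ∀ q, w q ∈ cone X := fun q => ⟨(hw q).choose, hWX (hw q).choose_spec⟩
    refine ⟨i, j, fun q => pt ⟨w q, hwX q⟩, fun q => pt ⟨y q, hy q⟩, hij, hj,
      fun q => (hw q).choose_spec, ?_⟩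
    rw [← sum_vec, hsum, sum_cl φ w hwX, sum_cl φ y hy]

theorem main {r s N e : ℕ} (he : e < N) {X : Set (Pt r)} (hX : IsVariety X N) {Y : Set (Pt s)}
    (hY : IsClosedSet Y) {φ : B X →+ B Y} (hφ : IsAlgebraicHom X Y φ) :
    List.TFAE
      [∃ c : ℕ, ∀ (n : ℕ) (x : Fin n → X), (N - e) * n ≤ dim (fibreHom φ x) + c,
       ∃ n : ℕ, ∀ x : Fin n → X, (N - e - 1) * n < dim (fibreHom φ x),
       ∃ W ⊆ X, IsClosedSet W ∧ dim {x : Unit → Pt r | x () ∈ W} ≤ e ∧ ∃ P, MovesTo φ W P] := by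
  have := uncountable_complex
  obtain ⟨d, rfl⟩ : ∃ d, N = d + (e + 1) := ⟨N - (e + 1), by omega⟩
  obtain ⟨k₀, hk₀⟩ := setup_cone hX
  obtain ⟨k, hk0k, hkc, hc⟩ := cls_hom stmStab hY hφ hk₀
  have hk : Setup k (cone X) (d + 1 + (e + 1)) := by
    have h1 := hk₀.mono hk0k hkc
    have h2 : d + (e + 1) + 1 = d + 1 + (e + 1) := by omega
    rwa [h2] at h1
  have h := roitman_tfae stmComp hk hc
  have key : ∀ (n s : ℕ), (∀ x : Fin n → X, s ≤ dim (fibreHom φ x)) ↔
      ∀ z : Fin n → Fin (r + 1) → ℂ, (∀ i, z i ∈ cone X) →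
        Big (cone X) (fun v => φ (cl X v)) z (s + n) := by
    intro n s
    constructor
    · intro h z hzc
      exact (big_iffHom φ (sum_cl φ z hzc) s).mpr (h _)
    · intro h x
      exact (big_iffHom φ (sum_vec φ x) s).mp (h _ fun i => (vec (x i)).2)
  have e1 : d + (e + 1) - e = d + 1 := by omega
  have e2 : d + (e + 1) - e - 1 = d := by omega
  rw [e2, e1]
  have h11 : (∃ c : ℕ, ∀ (n : ℕ) (x : Fin n → X), (d + 1) * n ≤ dim (fibreHom φ x) + c) ↔
      ∃ c : ℕ, ∀ (m : ℕ) (z : Fin m → Fin (r + 1) → ℂ), (∀ i, z i ∈ cone X) →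
        Big (cone X) (fun v => φ (cl X v)) z ((d + 2) * m - c) := by
    have e0 : ∀ n, (d + 2) * n = (d + 1) * n + n := fun n => by ring
    constructor
    · rintro ⟨c, hc⟩
      refine ⟨c, fun m z hzc => ?_⟩
      have h3 := (key m ((d + 1) * m - c)).mp (fun x => by
        have := hc m x
        omega) z hzc
      refine h3.mono ?_
      rw [e0]
      omega
    · rintro ⟨c, hc⟩
      refine ⟨c, fun m x => ?_⟩
      have h1 := (key m ((d + 1) * m - c)).mpr (fun z hzc => by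
        by_cases h2 : (d + 1) * m ≤ c
        · rw [Nat.sub_eq_zero_of_le h2]
          exact (big_iffHom φ (sum_cl φ z hzc) 0).mpr (Nat.zero_le _)
        · refine (hc m z hzc).mono ?_
          rw [e0]
          omega) x
      omega
  have h22 : (∃ n : ℕ, ∀ x : Fin n → X, d * n < dim (fibreHom φ x)) ↔
      ∃ m : ℕ, ∀ z : Fin m → Fin (r + 1) → ℂ, (∀ i, z i ∈ cone X) →
        Big (cone X) (fun v => φ (cl X v)) z ((d + 1) * m + 1) := by
    refine exists_congr fun n => ?_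
    have e3 : (d + 1) * n + 1 = (d * n + 1) + n := by ring
    rw [e3, ← key]
    exact Iff.rfl
  have h33 : (∃ W ⊆ X, IsClosedSet W ∧ dim {x : Unit → Pt r | x () ∈ W} ≤ e ∧
      ∃ P, MovesTo φ W P) ↔
      ∃ (k' : Subfield ℂ) (W : Set (Fin (r + 1) → ℂ)) (P : ℕ), Countable k' ∧ k ≤ k' ∧
         Small k' (cone X) W (e + 1) ∧ Red (cone X) (cone X) W (fun v => φ (cl X v)) P := by
    constructor
    · rintro ⟨W, hWX, hW, hd, P, hP⟩
      obtain ⟨k', hk'c, hkk', hS⟩ := small_cone hWX hW hd hkc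
      exact ⟨k', cone W, P, hk'c, hkk', hS, (movesTo_iff φ hWX P).mp hP⟩
    · rintro ⟨k', W, P, hk'c, hkk', hS, hR⟩
      obtain ⟨W', hW'X, rfl, hcl, hd⟩ := exists_pts hk'c hS
      exact ⟨W', hW'X, hcl, hd, P, (movesTo_iff φ hW'X P).mpr hR⟩
  rw [h11, h22, h33]
  exact h

theorem closed_union {r : ℕ} {V W : Set (Pt r)} (hV : IsClosedSet V) (hW : IsClosedSet W) :
    IsClosedSet (V ∪ W) := by
  classical
  obtain ⟨S, hS, hSV⟩ := hV
  obtain ⟨T, hT, hTW⟩ := hW
  refine ⟨(S ×ˢ T).image fun p => p.1 * p.2, fun P hP => ?_, fun x => ?_⟩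
  · obtain ⟨p, hp, rfl⟩ := Finset.mem_image.mp hP
    obtain ⟨h1, h2⟩ := Finset.mem_product.mp hp
    obtain ⟨a, ha⟩ := hS _ h1
    obtain ⟨b, hb⟩ := hT _ h2
    exact ⟨a + b, ha.mul hb⟩
  · rw [Finset.forall_mem_image]
    constructor
    · rintro (hx | hx) p hp
      · rw [map_mul, (hSV x).mp hx _ (Finset.mem_product.mp hp).1, zero_mul]
      · rw [map_mul, (hTW x).mp hx _ (Finset.mem_product.mp hp).2, mul_zero]
    · intro h
      by_contra hcon
      rw [Set.mem_union, not_or, hSV, hTW] at hcon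
      push Not at hcon
      obtain ⟨⟨P, hP, hP0⟩, ⟨Q, hQ, hQ0⟩⟩ := hcon
      have h1 := h (x := (P, Q)) (Finset.mem_product.mpr ⟨hP, hQ⟩)
      rw [map_mul] at h1
      exact mul_ne_zero hP0 hQ0 h1

theorem dim_union {r e : ℕ} {V W : Set (Pt r)} (hV : dim {x : Unit → Pt r | x () ∈ V} ≤ e)
    (hW : dim {x : Unit → Pt r | x () ∈ W} ≤ e) : dim {x : Unit → Pt r | x () ∈ V ∪ W} ≤ e := by
  obtain ⟨L, hL, h1⟩ := exists_rank hV
  obtain ⟨L', hL', h2⟩ := exists_rank hW
  refine dim_le (L := adj L L') (countable_adj (Set.countable_coe_iff.mp hL')) ?_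
  rintro v ⟨hv, hvV | hvW⟩
  · exact (rk_anti (le_adj_left _ _) _).trans (h1 v ⟨hv, hvV⟩)
  · exact (rk_anti (fun x hx => subset_adj _ _ hx) _).trans (h2 v ⟨hv, hvW⟩)

theorem closed_point {r : ℕ} (x : Pt r) : IsClosedSet {x} ∧
    dim {y : Unit → Pt r | y () ∈ ({x} : Set (Pt r))} ≤ 0 := by
  have hcone : ∀ v : Fin (r + 1) → ℂ, v ∈ cone ({x} : Set (Pt r)) ↔
      v ≠ 0 ∧ ∀ P ∈ {P : MvPolynomial (Fin (r + 1)) ℂ | ∃ a b, P = X a * C (x.rep b) -
        X b * C (x.rep a)}, eval v P = 0 := by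
    intro v
    obtain ⟨b, hb⟩ := exists_ne x.rep_nonzero
    constructor
    · rintro ⟨hv, hx⟩
      refine ⟨hv, ?_⟩
      obtain ⟨c, hc, hcv⟩ := exists_rep v hv
      have hx' : Projectivization.mk ℂ v hv = x := hx
      rw [hx'] at hcv
      rintro _ ⟨a, b, rfl⟩
      rw [hcv]
      simp
      ring
    · rintro ⟨hv, h⟩
      refine ⟨hv, ?_⟩
      have h1 : (v b / x.rep b) • x.rep = v := by
        funext a
        have h2 := h _ ⟨a, b, rfl⟩
        simp only [map_sub, map_mul, eval_X, eval_C] at h2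
        simp only [Pi.smul_apply, smul_eq_mul]
        field_simp
        linear_combination -h2
      show Projectivization.mk ℂ v hv = x
      rw [← Projectivization.mk_rep x, Projectivization.mk_eq_mk_iff']
      exact ⟨_, h1⟩
  refine ⟨closedSet_of_cone _ hcone, ?_⟩
  have hc : Countable (⊥ : Subfield ℂ) := by
    have h2 := Subfield.cardinalMk_closure_le_max (∅ : Set ℂ)
    rw [Subfield.closure_empty] at h2
    rw [← Cardinal.mk_le_aleph0_iff]
    refine h2.trans ?_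
    simp
  refine dim_le (L := adj ⊥ (Set.range x.rep)) (countable_adj (Set.countable_range _)) ?_
  rintro v ⟨hv, hx⟩
  obtain ⟨c, hc, hcv⟩ := exists_rep v hv
  have hx' : Projectivization.mk ℂ v hv = x := hx
  rw [hx'] at hcv
  refine (rk_le_of_mem (T := {c}) ?_).trans ((rk_le_encard _ _).trans (by simp))
  rintro _ ⟨a, rfl⟩
  have h1 : v a = c⁻¹ * x.rep a := by
    rw [hcv]
    simp only [Pi.smul_apply, smul_eq_mul]
    rw [inv_mul_cancel_left₀ hc]
  rw [h1]
  exact mul_mem (inv_mem (subset_adj _ _ rfl))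
    (le_adj_left _ _ (subset_adj _ _ ⟨a, rfl⟩))

/-- The subgroup generated by the classes of the points of `W`. -/
def pts {r : ℕ} (X W : Set (Pt r)) : AddSubgroup (B X) :=
  AddSubgroup.closure {c | ∃ x : X, (x : Pt r) ∈ W ∧ c = γ X fun _ : Fin 1 => x}

theorem cl_vec {r : ℕ} {X : Set (Pt r)} (x : X) : cl X (x : Pt r).rep = γ X fun _ : Fin 1 => x := by
  have h := γ_pt (X := X) fun _ : Fin 1 => vec x
  simp only [pt_vec] at h
  rw [h, Fin.sum_univ_one]
  rfl

theorem support {r s N e : ℕ} (he : e < N) (he1 : 1 ≤ e) {X : Set (Pt r)} (hX : IsVariety X N)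
    {Y : Set (Pt s)} (hY : IsClosedSet Y) {φ : B X →+ B Y} (hφ : IsAlgebraicHom X Y φ)
    (h : ∃ n : ℕ, ∀ x : Fin n → X, (N - e - 1) * n < dim (fibreHom φ x)) :
    ∃ W ⊆ X, IsClosedSet W ∧ dim {x : Unit → Pt r | x () ∈ W} ≤ e ∧
      ∀ b : B X, ∃ w ∈ pts X W, φ b = φ w := by
  classical
  obtain ⟨W, hWX, hW, hd, P, hP⟩ := ((main he hX hY hφ).out 1 2).mp h
  have := uncountable_complex
  obtain ⟨k₀, hk₀⟩ := setup_cone hX
  obtain ⟨k, hk0k, hkc, hc⟩ := cls_hom stmStab hY hφ hk₀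
  obtain ⟨k', hk'c, hkk', hS⟩ := small_cone hWX hW hd hkc
  have hk := hk₀.mono (hk0k.trans hkk') hk'c
  obtain ⟨C, hC, hmod⟩ := exists_curve (by omega) hk (hc.mono hkk') hS
    ((movesTo_iff φ hWX P).mp hP)
  obtain ⟨x₀, hx₀⟩ := hX.irred.1
  refine ⟨W ∪ (C ∪ {x₀}), Set.union_subset hWX (Set.union_subset hC.subset
    (Set.singleton_subset_iff.mpr hx₀)), closed_union hW (closed_union (closed_of_good hC)
    (closed_point x₀).1), dim_union hd (dim_union ((dim_of_good hC).trans he1)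
    ((closed_point x₀).2.trans (Nat.zero_le _))), fun b => ?_⟩
  set H : AddSubgroup (B Y) := (pts X (W ∪ (C ∪ {x₀}))).map φ with hH
  have hmem : ∀ x : X, (x : Pt r) ∈ W ∪ (C ∪ {x₀}) → φ (cl X (x : Pt r).rep) ∈ H := by
    intro x hx
    refine ⟨γ X fun _ : Fin 1 => x, AddSubgroup.subset_closure ⟨x, hx, rfl⟩, ?_⟩
    rw [cl_vec]
  have hcone : ∀ v ∈ cone W, φ (cl X v) ∈ H := by
    intro v hv
    obtain ⟨hv0, hvW⟩ := hv
    have hvX : v ∈ cone X := ⟨hv0, hWX hvW⟩
    have h1 : cl X v = γ X fun _ : Fin 1 => pt ⟨v, hvX⟩ := by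
      rw [γ_pt fun _ : Fin 1 => (⟨v, hvX⟩ : cone X), Fin.sum_univ_one]
    rw [h1, ← cl_vec]
    exact hmem (pt ⟨v, hvX⟩) (Or.inl hvW)
  have hle : AddSubgroup.closure ((fun v => φ (cl X v)) '' cone W) ⊔
      AddSubgroup.closure ((fun x : Pt r => φ (cl X x.rep)) '' C) ≤ H := by
    refine sup_le ?_ ?_
    · rw [AddSubgroup.closure_le]
      rintro _ ⟨v, hv, rfl⟩
      exact hcone v hv
    · rw [AddSubgroup.closure_le]
      rintro _ ⟨x, hx, rfl⟩
      exact hmem ⟨x, hC.subset hx⟩ (Or.inr (Or.inl hx))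
  have hpt : ∀ x : X, φ (γ X fun _ : Fin 1 => x) ∈ H := by
    intro x
    have h1 := hle (hmod x x.2 x₀ hx₀)
    have h2 := hmem ⟨x₀, hx₀⟩ (Or.inr (Or.inr rfl))
    have h3 := AddSubgroup.add_mem _ h1 h2
    rw [← cl_vec]
    have h4 : φ (cl X (x : Pt r).rep) - φ (cl X x₀.rep) + φ (cl X x₀.rep) =
        φ (cl X (x : Pt r).rep) := sub_add_cancel _ _
    rw [h4] at h3
    exact h3
  have hall : ∀ b : B X, φ b ∈ H := by
    intro b
    obtain ⟨z, rfl⟩ := QuotientAddGroup.mk_surjective b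
    induction z using FreeAbelianGroup.induction_on with
    | zero =>
      have : φ (QuotientAddGroup.mk 0) = 0 := map_zero φ
      rw [this]
      exact zero_mem _
    | of x =>
      have h1 : (QuotientAddGroup.mk (FreeAbelianGroup.of x) : B X) = γ X fun _ : Fin 1 => x := by
        rw [γ, Fin.sum_univ_one]
      rw [h1]
      exact hpt x
    | neg x hx =>
      have h1 : (QuotientAddGroup.mk (-FreeAbelianGroup.of x) : B X) =
          - QuotientAddGroup.mk (FreeAbelianGroup.of x) := rfl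
      rw [h1, map_neg]
      exact neg_mem hx
    | add x y hx hy =>
      have h1 : (QuotientAddGroup.mk (x + y) : B X) =
          QuotientAddGroup.mk x + QuotientAddGroup.mk y := rfl
      rw [h1, map_add]
      exact add_mem hx hy
  obtain ⟨w, hw, hwb⟩ := hall b
  exact ⟨w, hw, hwb.symm⟩

/-- The identity is given by a family of zero-cycles. -/
theorem isAlgebraicHom_id {r : ℕ} (X : Set (Pt r)) : IsAlgebraicHom X X (AddMonoidHom.id (B X)) := by
  classical
  refine ⟨1, 0, fun x _ => x, fun _ i => i.elim0, ?_, ?_, fun x => ?_⟩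
  · refine ⟨{∑ a, MvPolynomial.X a * C (MvPolynomial.X a)}, ?_, ?_, ?_⟩
    · intro G hG
      rw [Finset.mem_singleton.mp hG]
      refine ⟨1, IsHomogeneous.sum _ _ _ fun a _ => ?_⟩
      have := (isHomogeneous_X (MvPolynomial (Fin (r + 1)) ℂ) a).mul
        (isHomogeneous_C (Fin (r + 1)) (MvPolynomial.X a : MvPolynomial (Fin (r + 1)) ℂ))
      rwa [add_zero] at this
    · intro x G hG
      rw [Finset.mem_singleton.mp hG]
      refine ⟨1, ?_⟩
      rw [C_1, one_mul, value, map_sum, chowForm, Fin.prod_univ_one]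
      refine Finset.sum_congr rfl fun a _ => ?_
      rw [map_mul, eval_X, eval_C]
    · intro x
      refine ⟨_, Finset.mem_singleton_self _, ?_⟩
      rw [value, map_sum]
      have h1 : ∑ a, (eval fun a => C ((x : Pt r).rep a))
          (MvPolynomial.X a * C (MvPolynomial.X a : MvPolynomial (Fin (r + 1)) ℂ)) =
            Pool.Agent.Y148.OD.lin (x : Pt r).rep := by
        rw [Pool.Agent.Y148.OD.lin]
        refine Finset.sum_congr rfl fun a _ => ?_
        rw [map_mul, eval_X, eval_C]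
      rw [h1]
      exact Pool.Agent.Y737.OD.lin_ne_zero _ (x : Pt r).rep_nonzero
  · refine ⟨{1}, ?_, ?_, ?_⟩
    · intro G hG
      rw [Finset.mem_singleton.mp hG]
      exact ⟨0, isHomogeneous_one _ _⟩
    · intro x G hG
      rw [Finset.mem_singleton.mp hG]
      refine ⟨1, ?_⟩
      rw [value, map_one, C_1, one_mul, chowForm, Fin.prod_univ_zero]
    · intro x
      refine ⟨1, Finset.mem_singleton_self _, ?_⟩
      rw [value, map_one]
      exact one_ne_zero
  · have h1 : γ X (fun i : Fin 0 => (i.elim0 : X)) = 0 := by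
      rw [γ, Fin.sum_univ_zero]
      rfl
    rw [h1, sub_zero]
    rfl

theorem fibre_eq {r : ℕ} (X : Set (Pt r)) {n : ℕ} (x : Fin n → X) :
    fibre X x = fibreHom (AddMonoidHom.id (B X)) x := rfl

theorem dn_lt_iff {r N e : ℕ} (he : e < N) {X : Set (Pt r)} (hX : X.Nonempty) :
    (∃ n : ℕ, dn X N n < (e + 1) * n) ↔
      ∃ n : ℕ, ∀ x : Fin n → X, (N - e - 1) * n < dim (fibreHom (AddMonoidHom.id (B X)) x) := by
  obtain ⟨d, rfl⟩ : ∃ d, N = d + (e + 1) := ⟨N - (e + 1), by omega⟩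
  have e2 : d + (e + 1) - e - 1 = d := by omega
  rw [e2]
  have h2 : ∀ n, (d + (e + 1)) * n = d * n + (e + 1) * n := fun n => by ring
  constructor
  · rintro ⟨n, h⟩
    refine ⟨n, fun x => ?_⟩
    have h1 : sInf {d | ∃ x : Fin n → X, d = dim (fibre X x)} ≤ dim (fibre X x) :=
      Nat.sInf_le ⟨x, rfl⟩
    rw [dn, h2] at h
    rw [← fibre_eq]
    omega
  · rintro ⟨n, h⟩
    have hn : 0 < n := by
      rcases Nat.eq_zero_or_pos n with rfl | hn
      · exfalso
        have h3 := h fun i => i.elim0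
        rw [Nat.mul_zero] at h3
        have h4 : dim (fibreHom (AddMonoidHom.id (B X)) fun i : Fin 0 => (i.elim0 : X)) ≤ 0 := by
          refine csSup_le ⟨0, ?_⟩ ?_
          · intro L hL
            exact ⟨fun i => i.elim0, ⟨fun i => i.elim0, rfl⟩, ∅, Set.empty_subset _,
              (algebraicIndependent_empty (K := L) (A := ℂ)), by simp⟩
          · intro b hb
            have hc : Countable (⊥ : Subfield ℂ) := by
              have h2 := Subfield.cardinalMk_closure_le_max (∅ : Set ℂ)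
              rw [Subfield.closure_empty] at h2
              rw [← Cardinal.mk_le_aleph0_iff]
              refine h2.trans ?_
              simp
            obtain ⟨x, -, s, hs, -, hcard⟩ := hb ⊥ hc
            have hse : s = ∅ := by
              refine Set.eq_empty_of_subset_empty (hs.trans ?_)
              rintro c ⟨i, -⟩
              exact i.elim0
            rw [hse, Set.encard_empty] at hcard
            have := Nat.cast_inj (R := ℕ∞) (m := 0) (n := b) |>.mp (by simpa using hcard)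
            omega
        omega
      · exact hn
    refine ⟨n, ?_⟩
    obtain ⟨x₀, hx₀⟩ := hX
    obtain ⟨x, hx⟩ : sInf {d | ∃ x : Fin n → X, d = dim (fibre X x)} ∈
        {d | ∃ x : Fin n → X, d = dim (fibre X x)} :=
      Nat.sInf_mem ⟨_, ⟨fun _ => ⟨x₀, hx₀⟩, rfl⟩⟩
    have h1 := h x
    rw [← fibre_eq, ← hx] at h1
    have h3 : 0 < (e + 1) * n := by positivity
    rw [dn, h2]
    omega

theorem dn_le_iff {r N e : ℕ} (he : e < N) {X : Set (Pt r)} (hX : X.Nonempty) :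
    (∃ c : ℕ, ∀ n : ℕ, dn X N n ≤ e * n + c) ↔
      ∃ c : ℕ, ∀ (n : ℕ) (x : Fin n → X),
        (N - e) * n ≤ dim (fibreHom (AddMonoidHom.id (B X)) x) + c := by
  obtain ⟨d, rfl⟩ : ∃ d, N = d + e := ⟨N - e, by omega⟩
  have e2 : d + e - e = d := by omega
  rw [e2]
  have h2 : ∀ n, (d + e) * n = d * n + e * n := fun n => by ring
  refine exists_congr fun c => forall_congr' fun n => ?_
  constructor
  · intro h x
    have h1 : sInf {d | ∃ x : Fin n → X, d = dim (fibre X x)} ≤ dim (fibre X x) :=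
      Nat.sInf_le ⟨x, rfl⟩
    rw [dn, h2] at h
    rw [← fibre_eq]
    omega
  · intro h
    obtain ⟨x₀, hx₀⟩ := hX
    obtain ⟨x, hx⟩ : sInf {d | ∃ x : Fin n → X, d = dim (fibre X x)} ∈
        {d | ∃ x : Fin n → X, d = dim (fibre X x)} :=
      Nat.sInf_mem ⟨_, ⟨fun _ => ⟨x₀, hx₀⟩, rfl⟩⟩
    have h1 := h x
    rw [← fibre_eq, ← hx] at h1
    rw [dn, h2]
    omega

/-- `W` is a closed subset of `X` of dimension at most `e`. -/
def ClosedSub {r : ℕ} (X : Set (Pt r)) (e : ℕ) (W : Set (Pt r)) : Prop :=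
  W ⊆ X ∧ IsClosedSet W ∧ dim {x : Unit → Pt r | x () ∈ W} ≤ e

/-- Condition (3). -/
def Moves {r s : ℕ} {X : Set (Pt r)} {Y : Set (Pt s)} (φ : Hom X Y) (e : ℕ) : Prop :=
  ∃ W, ClosedSub X e W ∧ ∃ P, MovesTo φ W P

/-- The zero-cycles on a closed subset of dimension at most `e` have the same image as all. -/
def Supported {r s : ℕ} {X : Set (Pt r)} {Y : Set (Pt s)} (φ : Hom X Y) (e : ℕ) : Prop :=
  ∃ W, ClosedSub X e W ∧ ∀ b : B X, ∃ w ∈ pts X W, φ b = φ w

theorem moves_iff {r s : ℕ} {X : Set (Pt r)} {Y : Set (Pt s)} (φ : B X →+ B Y) (e : ℕ) :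
    Moves φ e ↔ ∃ W ⊆ X, IsClosedSet W ∧ dim {x : Unit → Pt r | x () ∈ W} ≤ e ∧
      ∃ P, MovesTo φ W P := by
  constructor
  · rintro ⟨W, ⟨h1, h2, h3⟩, h⟩
    exact ⟨W, h1, h2, h3, h⟩
  · rintro ⟨W, h1, h2, h3, h⟩
    exact ⟨W, ⟨h1, h2, h3⟩, h⟩

/-- Condition (1): the fibres of `φ ∘ γ` on `Xⁿ` have at least the dimension `(N - e) n - c`. -/
def LargeFibres {r s : ℕ} {X : Set (Pt r)} {Y : Set (Pt s)} (φ : Hom X Y) (N e : ℕ) : Prop :=
  ∃ c : ℕ, ∀ (n : ℕ) (x : Fin n → X), (N - e) * n ≤ dim (fibreHom φ x) + c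

/-- Condition (2): for one `n` all fibres of `φ ∘ γ` on `Xⁿ` have a dimension greater than
`(N - e - 1) n`. -/
def LargeForOne {r s : ℕ} {X : Set (Pt r)} {Y : Set (Pt s)} (φ : Hom X Y) (N e : ℕ) : Prop :=
  ∃ n : ℕ, ∀ x : Fin n → X, (N - e - 1) * n < dim (fibreHom φ x)

theorem tfae_hom {r s N e : ℕ} (he : e < N) {X : Set (Pt r)} (hX : IsVariety X N) {Y : Set (Pt s)}
    (hY : IsClosedSet Y) {φ : B X →+ B Y} (hφ : IsAlgebraicHom X Y φ) :
    [LargeFibres φ N e, LargeForOne φ N e, Moves φ e].TFAE := by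
  rw [moves_iff]
  exact main he hX hY hφ

/-- The identity of `B(X)`. -/
abbrev idHom {r : ℕ} (X : Set (Pt r)) : Hom X X := AddMonoidHom.id (B X)

theorem tfae_id {r N e : ℕ} (he : e < N) {X : Set (Pt r)} (hX : IsVariety X N) :
    [∃ c : ℕ, ∀ n : ℕ, dn X N n ≤ e * n + c, ∃ n : ℕ, dn X N n < (e + 1) * n,
        Moves (idHom X) e].TFAE := by
  rw [dn_le_iff he hX.irred.1, dn_lt_iff he hX.irred.1]
  exact tfae_hom he hX hX.closed (isAlgebraicHom_id X)

theorem supported_hom {r s N e : ℕ} (he : e < N) (he1 : 1 ≤ e) {X : Set (Pt r)}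
    (hX : IsVariety X N) {Y : Set (Pt s)} (hY : IsClosedSet Y) {φ : B X →+ B Y}
    (hφ : IsAlgebraicHom X Y φ) (h : LargeForOne φ N e) : Supported φ e := by
  obtain ⟨W, hWX, hW, hd, hb⟩ := support he he1 hX hY hφ h
  exact ⟨W, ⟨hWX, hW, hd⟩, hb⟩

end Pool.Agent.H837.RN
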