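import Pool.Agent.H837.RN.Conv2
import Pool.Graph.R_pool_sql_team_seeded_1acbe0a2.Y148.OD.Corr2

/-!
# The group of zero-cycles is generated by the points of a closed subset of given dimension
-/

set_option autoImplicit false

namespace Pool.Agent.H837.RN

open MvPolynomial Pool.Agent.Y148.OD
open Pool.Agent.N164 (RP.IsCoord RP.Vanishes RP.VanishesOn RP.one RP.Base RP.GoodCurve RP.InChart
  RP.affine RP.toC RP.PolyK RP.Poly RP.Loc RP.Et RP.E)

variable {r : ℕ} {A : Type} [AddCommGroup A]

/-- Polynomials vanishing at generic multiples of vectors vanish at all multiples. -/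
theorem vanish_scale {k : Subfield ℂ} {ι : Type} [Finite ι] {t : ι → Fin (r + 1) → ℂ} {c : ι → ℂ}
    (hc : AlgebraicIndependent (adj k (coords t)) c) (P : MvPolynomial (ι × Fin (r + 1)) k)
    (hP : aeval (fun s : ι × Fin (r + 1) => c s.1 * t s.1 s.2) P = 0) (l : ι → ℂ) :
    aeval (fun s : ι × Fin (r + 1) => l s.1 * t s.1 s.2) P = 0 := by
  set K := adj k (coords t) with hK
  have htK : ∀ i a, t i a ∈ K := fun i a => subset_adj _ _ ⟨i, a, rfl⟩
  let Q : MvPolynomial ι K := eval₂ (C.comp (Subfield.inclusion (le_adj_left k (coords t))))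
    (fun s : ι × Fin (r + 1) => X s.1 * C (⟨t s.1 s.2, htK _ _⟩ : K)) P
  have hQ : ∀ l : ι → ℂ, aeval l Q = aeval (fun s : ι × Fin (r + 1) => l s.1 * t s.1 s.2) P := by
    intro l
    have h1 : (aeval l : MvPolynomial ι K →ₐ[K] ℂ).toRingHom Q =
        eval₂ ((aeval l : MvPolynomial ι K →ₐ[K] ℂ).toRingHom.comp
          (C.comp (Subfield.inclusion (le_adj_left k (coords t)))))
          (fun s => (aeval l : MvPolynomial ι K →ₐ[K] ℂ).toRingHom
            (X s.1 * C (⟨t s.1 s.2, htK _ _⟩ : K))) P := hom_eval₂ P _ _ _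
    have h2 : aeval l Q = _ := h1
    rw [h2, aeval_def]
    congr 1
    · ext x
      simp
      rfl
    · funext s
      simp
      exact Or.inl rfl
  have h0 : Q = 0 := algebraicIndependent_iff.mp hc Q (by rw [hQ]; exact hP)
  rw [← hQ, h0, map_zero]

/-- The rank of the affine coordinates. -/
theorem le_rk_Et {k : Subfield ℂ} {n m : ℕ} {z : Fin n → Fin (r + 1) → ℂ} {p : Fin m → Pt r}
    (f : Fin n → Fin m) (hz : ∀ i, RP.IsCoord (z i) (p (f i))) {R : ℕ}
    (hr : ((R + n : ℕ) : ℕ∞) ≤ rk k (coords z)) : (R : ℕ∞) ≤ rk k (RP.Et p) := by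
  choose b hb using fun i => exists_ne (v := z i) (hz i).choose
  have h1 : rk k (coords z) ≤ rk k (Set.range (fun i => z i (b i)) ∪ RP.Et p) := by
    refine rk_le_of_mem ?_
    rintro x ⟨i, a, rfl⟩
    have h2 : z i a = z i (b i) * RP.affine (fun _ : Unit => b i) (fun _ : Unit => p (f i)) ((), a) := by
      have h3 := Pool.Agent.N164.RP.affine_of_isCoord (a := fun _ : Unit => b i)
        (p := fun _ : Unit => p (f i)) (v := fun _ => z i) (fun _ => hz i) ((), a)
      rw [← h3]
      show z i a = z i (b i) * (z i a / z i (b i))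
      rw [mul_div_cancel₀ _ (hb i)]
    rw [h2]
    refine mul_mem (subset_adj _ _ (Or.inl ⟨i, rfl⟩)) ?_
    have h4 := Pool.Agent.N164.RP.rep_can (p (f i))
    have h5 : ∀ j, (p (f i)).rep j / (p (f i)).rep (Pool.Agent.N164.RP.can (p (f i))) ∈
        adj k (Set.range (fun i => z i (b i)) ∪ RP.Et p) := fun j =>
      subset_adj _ _ (Or.inr (Set.mem_iUnion.2 ⟨f i, ⟨((), j), rfl⟩⟩))
    have h6 := div_mem (h5 a) (h5 (b i))
    rw [div_div_div_cancel_right₀ h4] at h6
    exact h6
  have h2 : rk k (Set.range fun i => z i (b i)) ≤ (n : ℕ∞) := by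
    refine (rk_le_encard _ _).trans ?_
    rw [← Set.image_univ]
    refine (Set.encard_image_le _ _).trans ?_
    rw [Set.encard_univ, ENat.card_eq_coe_fintype_card, Fintype.card_fin]
  refine cancel_aux (p := n) (q := R) ?_ h2
  rw [add_comm]
  exact hr.trans (h1.trans (rk_union_le _ _ _))

/-- **Support.** If all effective zero-cycles on `X` can be moved to `W`, up to a bounded number of
points, then the classes of all points of `X` are equal modulo the classes of the points of `W` and of
a curve. -/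
theorem exists_curve {X : Set (Pt r)} {k : Subfield ℂ} {N e : ℕ} (hN : 1 ≤ N)
    (h : Setup k (cone X) (N + 1)) {cl : (Fin (r + 1) → ℂ) → A} (hc : Cls k (cone X) cl)
    {W : Set (Fin (r + 1) → ℂ)} {P : ℕ} (hW : Small k (cone X) W e)
    (hR : Red (cone X) (cone X) W cl P) :
    ∃ C, RP.GoodCurve X C ∧ ∀ x ∈ X, ∀ y ∈ X, cl x.rep - cl y.rep ∈
      AddSubgroup.closure (cl '' W) ⊔ AddSubgroup.closure ((fun x : Pt r => cl x.rep) '' C) := by
  classical
  have hunc := uncountable_complex
  have hkc := h.countable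
  set n := P * N + 1 with hn
  obtain ⟨z, hz, hzr⟩ := h.exists_family h.countable n
  obtain ⟨i, j, hij, hj, _, ⟨w, hw, rfl⟩, _, ⟨y, hy, rfl⟩, hsum⟩ := hR n _ ⟨z, hz, rfl⟩
  set t : Fin (n + j) → Fin (r + 1) → ℂ := Fin.append z y with ht
  have htV : ∀ q, t q ∈ cone X := by
    intro q
    refine Fin.addCases (fun q => ?_) (fun q => ?_) q
    · rw [ht, Fin.append_left]
      exact hz q
    · rw [ht, Fin.append_right]
      exact hy q
  let p : Fin (n + j) → Pt r := fun q => Projectivization.mk ℂ (t q) (htV q).choose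
  have htp : ∀ q, RP.IsCoord (t q) (p q) := fun q => ⟨(htV q).choose, rfl⟩
  have hpX : ∀ q, p q ∈ X := fun q => (htV q).choose_spec
  have hKc : Countable (adj k (coords t)) := countable_adj (countable_coords t)
  obtain ⟨c, hci⟩ := Pool.Agent.Y141.OD.exists_indep (adj k (coords t)) hKc (Fin (n + j))
  have hc0 : ∀ q, c q ≠ 0 := fun q => hci.ne_zero q
  let a : Fin (n + j) → ℤ := Fin.append (fun _ : Fin n => 1) (fun _ : Fin j => -1)
  -- specialisations
  have hspec : ∀ q ∈ RP.Loc k p,
      ∑ s, a s • cl (q s).rep ∈ AddSubgroup.closure (cl '' W) := by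
    intro q hq
    have hrel : ∀ Q : MvPolynomial (Fin (n + j) × Fin (r + 1)) k,
        aeval (fun s : Fin (n + j) × Fin (r + 1) => c s.1 * t s.1 s.2) Q = 0 →
          aeval (fun s : Fin (n + j) × Fin (r + 1) => (q s.1).rep s.2) Q = 0 := by
      intro Q hQ
      have h1 : RP.Vanishes (RP.toC Q) p := by
        intro v hv
        rw [Pool.Agent.N164.RP.eval_toC]
        have h2 : ∀ s, ∃ l : ℂ, v s = l • t s := by
          intro s
          obtain ⟨c₁, hc₁, h₁⟩ := Pool.Agent.N164.RP.isCoord_iff.mp (hv s)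
          obtain ⟨c₂, hc₂, h₂⟩ := Pool.Agent.N164.RP.isCoord_iff.mp (htp s)
          refine ⟨c₁ * c₂⁻¹, ?_⟩
          rw [h₁, h₂, smul_smul, mul_assoc, inv_mul_cancel₀ hc₂, mul_one]
        choose l hl using h2
        have h3 := vanish_scale hci Q hQ l
        rw [← h3]
        congr 2
        funext s
        rw [hl s.1]
        rfl
      have h2 := hq Q h1 (fun s => (q s).rep) fun s => Pool.Agent.N164.RP.isCoord_rep _
      rw [Pool.Agent.N164.RP.eval_toC] at h2
      exact h2
    obtain ⟨c', w', hc', hw', hext⟩ := extend_spec hkc _ _ hrel w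
      fun s => hc.ne_zero _ (hW.sub (hw s))
    -- the points `w'` are in `W`
    have hw'W : ∀ s, w' s ∈ W := by
      intro s
      obtain ⟨S, hS⟩ := hW.closed
      refine (hS _).mpr ⟨hw' s, fun Q hQ => ?_⟩
      have h1 := hext (rename (fun b => Sum.inr (s, b)) Q) (by
        rw [aeval_rename]
        exact ((hS _).mp (hW.smul (c' s) (w s) (hc' s) (hw s))).2 Q hQ)
      rw [aeval_rename] at h1
      exact h1
    obtain ⟨-, -, hst⟩ := hc.stab (Fin n) (Fin i ⊕ Fin j) (by simp [hij])
      (fun s => c (Fin.castAdd j s) • z s)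
      (Sum.elim (fun s => c' s • w s) fun s => c (Fin.natAdd n s) • y s)
      (fun s => (q (Fin.castAdd j s)).rep) (Sum.elim w' fun s => (q (Fin.natAdd n s)).rep)
      (fun s => smul_mem_cone (hc0 _) (hz s))
      (by
        rintro (s | s)
        · exact smul_mem_cone (hc' s) (hW.sub (hw s))
        · exact smul_mem_cone (hc0 _) (hy s))
      (by
        rw [Fintype.sum_sum_type]
        simp only [Sum.elim_inl, Sum.elim_inr]
        rw [Finset.sum_congr rfl fun s _ => hc.smul_cl _ _ (hc0 (Fin.castAdd j s)) (hz s),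
          Finset.sum_congr rfl fun s _ => hc.smul_cl _ _ (hc' s) (hW.sub (hw s)),
          Finset.sum_congr rfl fun s _ => hc.smul_cl _ _ (hc0 (Fin.natAdd n s)) (hy s), hsum])
      (fun s => (q _).rep_nonzero)
      (by
        rintro (s | s)
        · exact hw' s
        · exact (q _).rep_nonzero)
      (fun Q hQ => by
        have h7 := hext (rename (fun u : (Fin n ⊕ (Fin i ⊕ Fin j)) × Fin (r + 1) =>
          match u.1 with
          | Sum.inl s => (Sum.inl (Fin.castAdd j s, u.2) :
              (Fin (n + j) × Fin (r + 1)) ⊕ (Fin i × Fin (r + 1)))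
          | Sum.inr (Sum.inl s) => Sum.inr (s, u.2)
          | Sum.inr (Sum.inr s) => Sum.inl (Fin.natAdd n s, u.2)) Q)
        rw [aeval_rename, aeval_rename] at h7
        have h8 := h7 (by
          rw [← hQ]
          congr 1
          congr 1
          funext u
          obtain ⟨s | s | s, b⟩ := u
          · simp [ht]
          · simp
          · simp [ht])
        rw [← h8]
        congr 1
        congr 1
        funext u
        obtain ⟨s | s | s, b⟩ := u <;> rfl)
    have h9 : ∑ s, a s • cl (q s).rep = ∑ s, cl (w' s) := by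
      rw [Fin.sum_univ_add]
      simp only [a, Fin.append_left, Fin.append_right, one_smul, neg_smul]
      rw [hst, Fintype.sum_sum_type]
      simp only [Sum.elim_inl, Sum.elim_inr, Finset.sum_neg_distrib]
      abel
    rw [h9]
    exact AddSubgroup.sum_mem _ fun s _ =>
      AddSubgroup.subset_closure (Set.mem_image_of_mem _ (hw'W s))
  have hrk : (((n + j) * (N - 1) + 1 : ℕ) : ℕ∞) ≤ rk k (RP.Et p) := by
    have h1 := le_rk_Et (k := k) (z := z) (p := p) (fun s => Fin.castAdd j s) (fun s => by
      have := htp (Fin.castAdd j s)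
      rw [ht, Fin.append_left] at this
      exact this) (R := N * n) (by
        have : N * n + n = (N + 1) * n := by ring
        rw [this]
        exact hzr)
    refine le_trans ?_ h1
    have h2 : (n + j) * (N - 1) + 1 ≤ N * n := by
      obtain ⟨N', rfl⟩ : ∃ N', N = N' + 1 := ⟨N - 1, by omega⟩
      simp only [Nat.add_sub_cancel]
      have h3 : j * N' ≤ P * N' := Nat.mul_le_mul_right _ hj
      have h4 : n = P * (N' + 1) + 1 := hn
      nlinarith
    exact_mod_cast h2
  obtain ⟨C, hC, s, hs⟩ := Pool.Agent.N164.RP.main_induction (fun x : Pt r => cl x.rep) hN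
    (irr_of_setup h) (n + j) a k (base_of_setup h) (AddSubgroup.closure (cl '' W)) p hpX hrk
    (fun q hq q' hq' => by
      have h1 := AddSubgroup.sub_mem _ (hspec q hq) (hspec q' hq')
      rw [← Finset.sum_sub_distrib] at h1
      simpa only [smul_sub] using h1)
  refine ⟨C, hC, fun x hx y hy => ?_⟩
  have h1 := hs x hx y hy
  have ha : a s = 1 ∨ a s = -1 := by
    refine Fin.addCases (fun s => ?_) (fun s => ?_) s
    · left
      simp [a]
    · right
      simp [a]
  rcases ha with h2 | h2
  · rw [h2, one_smul] at h1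
    exact h1
  · rw [h2, neg_smul, one_smul] at h1
    exact (AddSubgroup.neg_mem_iff _).mp h1

end Pool.Agent.H837.RN
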