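import Pool.Agent.H837.RN.Dich

/-!
# The dimensions of the orbits and zero-cycles on a closed subset of given dimension
-/

set_option autoImplicit false

namespace Pool.Agent.H837.RN

open MvPolynomial Pool.Agent.Y148.OD

variable {Ω : Type} [Field Ω] {τ : Type} {A : Type} [AddCommGroup A]

theorem Small.rank_normal [IsAlgClosed Ω] [Uncountable Ω] [Countable τ] {k : Subfield Ω}
    (hk : Countable k) {V W : Set (τ → Ω)} {e : ℕ} (hW : Small k V W e) {v : τ → Ω} (hv : v ∈ W)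
    {b : τ} (hb : v b ≠ 0) : rk k (Set.range fun a => v a / v b) + 1 ≤ e := by
  have hc : Countable (adj k (Set.range fun a => v a / v b)) :=
    countable_adj (Set.countable_range _)
  obtain ⟨c, hc0, hc1⟩ := exists_transc hc
  exact (rk_smul_ge hb hc0 hc1).trans (hW.rank _ (hW.smul (c / v b) v (div_ne_zero hc0 hb) hv))

/-- normalising vectors -/
theorem Small.exists_normal [IsAlgClosed Ω] [Uncountable Ω] [Countable τ] {k : Subfield Ω}
    (hk : Countable k) {V W : Set (τ → Ω)} {cl : (τ → Ω) → A} (hc : Cls k V cl) {e : ℕ}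
    (hW : Small k V W (e + 1)) {ι : Type} [Fintype ι] {x : ι → τ → Ω} (hx : ∀ i, x i ∈ W) :
    ∃ u : ι → τ → Ω, (∀ i, u i ∈ W) ∧ ∑ i, cl (u i) = ∑ i, cl (x i) ∧
      rk k (coords u) ≤ ((e * Fintype.card ι : ℕ) : ℕ∞) := by
  have hne : ∀ i, ∃ b, x i b ≠ 0 := fun i => exists_coord (hx i) fun v hv => hc.ne_zero v (hW.sub hv)
  choose b hb using hne
  refine ⟨fun i => (x i (b i))⁻¹ • x i, fun i => hW.smul _ _ (inv_ne_zero (hb i)) (hx i), ?_, ?_⟩
  · exact Finset.sum_congr rfl fun i _ => hc.smul_cl _ _ (inv_ne_zero (hb i)) (hW.sub (hx i))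
  · refine rk_coords_le_of fun i => ?_
    have h2 := hW.rank_normal hk (hx i) (hb i)
    have h3 : Set.range ((x i (b i))⁻¹ • x i) = Set.range fun a => x i a / x i (b i) := by
      congr 1
      funext a
      simp only [Pi.smul_apply, smul_eq_mul]
      rw [div_eq_inv_mul]
    rw [h3]
    push_cast at h2
    exact (ENat.add_le_add_iff_right (by simp)).mp h2

/-- If the zero-cycles on `V` can be moved to `W` then the orbits are large. -/
theorem big_of_red [IsAlgClosed Ω] [Uncountable Ω] [Fintype τ] {k : Subfield Ω}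
    {V : Set (τ → Ω)} {d e : ℕ} (h : Setup k V (d + 1 + (e + 1))) {cl : (τ → Ω) → A}
    (hc : Cls k V cl) {W : Set (τ → Ω)} {P : ℕ} (hW : Small k V W (e + 1)) (hR : Red V V W cl P)
    (m : ℕ) {z₀ : Fin m → τ → Ω} (hz₀ : ∀ i, z₀ i ∈ V) :
    Big V cl z₀ ((d + 2) * m - (d + 2) * (2 * P)) := by
  classical
  by_cases hm : m ≤ 2 * P
  · intro L hL
    refine ⟨z₀, hz₀, rfl, ?_⟩
    rw [Nat.sub_eq_zero_of_le (Nat.mul_le_mul_left _ hm)]
    simp
  obtain ⟨z, hz, hzr⟩ := h.exists_family h.countable m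
  obtain ⟨i, j, hij, hj, _, ⟨x, hx, rfl⟩, _, ⟨y, hy, rfl⟩, hsum⟩ := hR m _ ⟨z, hz, rfl⟩
  obtain ⟨u, hu, hus, hur⟩ := hW.exists_normal h.countable hc hx
  rw [Fintype.card_fin] at hur
  have hkc := h.countable
  set t : Fin i ⊕ Fin j → τ → Ω := Sum.elim u y with ht
  have htV : ∀ q, t q ∈ V := by
    rintro (q | q)
    · exact hW.sub (hu q)
    · exact hy q
  have htsum : ∑ q, cl (t q) = ∑ q, cl (z q) := by
    rw [hsum, Fintype.sum_sum_type, ← hus]
    rfl
  set K := adj k (coords t) with hK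
  have hKc : Countable K := countable_adj (countable_coords t)
  set L := adj K (coords z) with hL
  have hLc : Countable L := countable_adj (countable_coords z)
  have hrt : rk k (coords t) ≤ ((e * i + (d + 1 + (e + 1)) * j : ℕ) : ℕ∞) := by
    rw [ht, coords_sum_elim]
    refine (rk_union_le _ _ _).trans ?_
    have h1 := rk_coords_le h hy
    rw [Fintype.card_fin] at h1
    exact_mod_cast add_le_add hur h1
  have hrz : (((d + 2) * i : ℕ) : ℕ∞) ≤ rk K (coords z) := by
    have h1 : (((d + 1 + (e + 1)) * m : ℕ) : ℕ∞) ≤ rk k (coords t) + rk K (coords z) := by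
      rw [hK, ← rk_adj_union]
      exact hzr.trans (rk_mono _ Set.subset_union_right)
    refine cancel_aux (p := e * i + (d + 1 + (e + 1)) * j) ?_ hrt
    refine le_trans (le_of_eq ?_) h1
    rw [← hij]
    push_cast
    ring
  obtain ⟨y', hy', -, hysum, hyr⟩ := hc.orbit_ext (κ := Fin i ⊕ Fin j)
    (ι := Fin m) (by simp [hij]) (le_adj_left k (coords t)) (le_adj_left K (coords z))
    hLc htV (fun i a => subset_adj _ _ ⟨i, a, rfl⟩) hz Set.univ
    (fun i hi => absurd (Set.mem_univ i) hi) htsum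
  rw [cof_univ, cof_univ] at hyr
  have h1 : (((d + 2) * i : ℕ) : ℕ∞) ≤ rk (adj k (coords z)) (coords y') :=
    hrz.trans (hyr.trans (rk_anti (adj_le ((le_adj_left k (coords t)).trans
      (le_adj_left K (coords z))) (subset_adj _ _)) _))
  have him : m ≤ (d + 2) * i := by
    have : 2 * i ≤ (d + 2) * i := Nat.mul_le_mul_right _ (by omega)
    omega
  obtain ⟨R, hRm⟩ : ∃ R, (d + 2) * i = R + m := ⟨(d + 2) * i - m, by omega⟩
  rw [hRm] at h1
  have h3 := semicont h hc hz hy' hysum.symm hzr h1 hz₀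
  intro L' hL'
  obtain ⟨y₂, hy₂, hys₂, hyr₂⟩ := h3 L' hL'
  refine ⟨y₂, hy₂, hys₂, le_trans ?_ hyr₂⟩
  rw [← hRm]
  have h4 : (d + 2) * m - (d + 2) * (2 * P) ≤ (d + 2) * i := by
    rw [← Nat.mul_sub]
    exact Nat.mul_le_mul_left _ (by omega)
  exact_mod_cast h4

/-- **The equivalences.** The dimension of `V` is `d + e + 2` and the subset `W` has the dimension
`e + 1`, as cones. -/
theorem roitman_tfae (hComp : StmComp) [IsAlgClosed Ω] [Uncountable Ω] [Fintype τ]
    {k : Subfield Ω} {V : Set (τ → Ω)} {d e : ℕ} (h : Setup k V (d + 1 + (e + 1)))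
    {cl : (τ → Ω) → A} (hc : Cls k V cl) :
    List.TFAE
      [∃ c : ℕ, ∀ (m : ℕ) (z : Fin m → τ → Ω), (∀ i, z i ∈ V) → Big V cl z ((d + 2) * m - c),
       ∃ m : ℕ, ∀ z : Fin m → τ → Ω, (∀ i, z i ∈ V) → Big V cl z ((d + 1) * m + 1),
       ∃ (k' : Subfield Ω) (W : Set (τ → Ω)) (P : ℕ), Countable k' ∧ k ≤ k' ∧
         Small k' V W (e + 1) ∧ Red V V W cl P] := by
  have hkc := h.countable
  tfae_have 1 → 2 := by
    rintro ⟨c, hc'⟩
    refine ⟨c + 1, fun z hz L hL => ?_⟩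
    obtain ⟨y, hy, hys, hyr⟩ := hc' (c + 1) z hz L hL
    refine ⟨y, hy, hys, le_trans ?_ hyr⟩
    have : (d + 1) * (c + 1) + 1 ≤ (d + 2) * (c + 1) - c := by
      have : (d + 2) * (c + 1) = (d + 1) * (c + 1) + 1 + c := by ring
      omega
    exact_mod_cast this
  tfae_have 2 → 3 := by
    rintro ⟨n, hn⟩
    rcases dichotomy_e hComp h hc (e + 1) _ k V le_rfl subset_rfl h hc.smul_mem with
      ⟨k', W, P, h1, h2, h3, h4⟩ | ⟨k', E, m', hk'c, hkk', hm', hE⟩
    · exact ⟨k', W, P, h1, h2, h3, h4⟩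
    · exfalso
      have h' := h.mono hkk' hk'c
      obtain ⟨z, hz, hzr⟩ := h'.exists_family hk'c n
      obtain ⟨y, hy, hys, hyr⟩ := hn z hz (adj k' (coords z)) (countable_adj (countable_coords z))
      have h1 := hE.orbit_le h' (hc.mono hkk') hz hy hys.symm hzr
      obtain ⟨Y, hY⟩ := exists_nat_rk h' (le_adj_left k' (coords z)) hy
      rw [← hY] at h1 hyr
      have h2 : Y + m' * n ≤ (d + 1 + (e + 1) + 1) * n := by exact_mod_cast h1
      have h3 : (d + 1) * n + 1 ≤ Y := by exact_mod_cast hyr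
      have h4 : (e + 1 + 1) * n ≤ m' * n := Nat.mul_le_mul_right _ hm'
      nlinarith
  tfae_have 3 → 1 := by
    rintro ⟨k', W, P, hk'c, hkk', hW, hR⟩
    exact ⟨(d + 2) * (2 * P), fun m z hz => big_of_red (h.mono hkk' hk'c) (hc.mono hkk') hW hR m hz⟩
  tfae_finish

end Pool.Agent.H837.RN
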